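import Pool.Agent.H15.G.R_pool_sql_team_seeded_64922ed1.X214.NU.Final
import Pool.Agent.H15.G.R_pool_sql_team_seeded_64922ed1.X167.NU.Fin

/-! Near-uniform multiplicities at `n ≥ 36` points, all degrees. -/

set_option autoImplicit false

namespace Pool.Agent.X214.NV

open Finset Pool.Agent.H932R3

/-- There are at least `36` points, and the vector `v` takes only the values `m` and `m + 1`, for
some `m ≥ 1`. -/
def NearRegular {n : ℕ} (v : Fin n → ℕ) : Prop :=
  36 ≤ n ∧ ∃ m : ℕ, 1 ≤ m ∧ ∀ i, v i = m ∨ v i = m + 1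

/-- **Every degree.** -/
theorem near_final {n : ℕ} {v : Fin n → ℕ} (h : NearRegular v) (L : Type) [Field L] [CharZero L] :
    ∃ F : MvPolynomial (Fin n × Fin 2) ℚ, F ≠ 0 ∧ ∀ (P : Fin n → Fin 2 → L),
      MvPolynomial.aeval (fun ij : Fin n × Fin 2 => P ij.1 ij.2) F ≠ 0 →
      ∀ d : ℕ, ExpDim L v P d := by
  obtain ⟨h36, m, hm, hv⟩ := h
  rcases Nat.eq_or_lt_of_le h36 with h | h
  · subst h
    exact Pool.Agent.X214.NU.near_final ⟨m, hm, hv, by norm_num,
      Or.inr (Or.inr (Or.inr (Or.inl (by norm_num))))⟩ L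
  · exact Pool.Agent.X167.NU.near37 h hm hv

/-- at generic points -/
theorem near_gen {n : ℕ} {v : Fin n → ℕ} (h : NearRegular v) {L : Type} [Field L] [CharZero L]
    {P : Fin n → Fin 2 → L} (hP : AlgebraicIndependent ℚ (fun ij : Fin n × Fin 2 => P ij.1 ij.2))
    (d : ℕ) : ExpDim L v P d := by
  obtain ⟨F, hF, hF'⟩ := near_final h L
  exact hF' P (fun h0 => hF (hP.eq_zero_of_aeval_eq_zero F h0)) d

theorem NearRegular.n36 {n : ℕ} {v : Fin n → ℕ} (h : NearRegular v) : 36 ≤ n := h.1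

end Pool.Agent.X214.NV
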